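import Pool.Agent.Helper17.SA.St

/-!
# Project SA (MP_21f9f3_al), module ANP (termwise bound for all p at least 5)
-/

set_option autoImplicit false

namespace Pool.Agent.Helper8.SA

open Equiv Pool.Agent.Helper17.SA

private theorem pa_desc (p a : ℕ) (ha : 1 ≤ a) : a ^ p * p.factorial ≤ (p * a).descFactorial p := by
  rw [← Nat.descFactorial_self p, Nat.descFactorial_eq_prod_range, Nat.descFactorial_eq_prod_range]
  calc a ^ p * ∏ i ∈ Finset.range p, (p - i) = ∏ i ∈ Finset.range p, (a * (p - i)) := by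
        rw [Finset.prod_mul_distrib, Finset.prod_const, Finset.card_range]
    _ ≤ ∏ i ∈ Finset.range p, (p * a - i) := by
        refine Finset.prod_le_prod' fun i hi => ?_
        rw [Nat.mul_sub, Nat.mul_comm a p]
        have : i ≤ a * i := Nat.le_mul_of_pos_left i ha
        omega

private theorem fact_step (p a M : ℕ) (ha : 1 ≤ a) (hM : p * a ≤ M) :
    (M - p).factorial * (p.factorial * a ^ p) ≤ M.factorial := by
  have hpM : p ≤ M := le_trans (Nat.le_mul_of_pos_right p ha) hM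
  rw [← Nat.factorial_mul_descFactorial hpM]
  apply Nat.mul_le_mul_left
  calc p.factorial * a ^ p = a ^ p * p.factorial := Nat.mul_comm _ _
    _ ≤ (p * a).descFactorial p := pa_desc p a ha
    _ ≤ M.descFactorial p := Nat.descFactorial_le p hM

private theorem fact_main (m p k : ℕ) (hk : k ≤ m / p) :
    (m - p * k).factorial * ((p.factorial) ^ k * ((m / p).descFactorial k) ^ p) ≤ m.factorial := by
  induction k with
  | zero => simp
  | succ k ih =>
    have hk' : k ≤ m / p := by omega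
    refine le_trans ?_ (ih hk')
    have ha : 1 ≤ m / p - k := by omega
    have hM : p * (m / p - k) ≤ m - p * k := by
      rw [Nat.mul_sub]
      have := Nat.mul_div_le m p
      omega
    have h := fact_step p (m / p - k) (m - p * k) ha hM
    have e : m - p * (k + 1) = m - p * k - p := by
      rw [Nat.mul_add, Nat.mul_one, Nat.sub_add_eq]
    rw [Nat.descFactorial_succ, mul_pow, e, pow_succ]
    calc (m - p * k - p).factorial * (p.factorial ^ k * p.factorial *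
          ((m / p - k) ^ p * (m / p).descFactorial k ^ p))
        = ((m - p * k - p).factorial * (p.factorial * (m / p - k) ^ p)) *
          (p.factorial ^ k * (m / p).descFactorial k ^ p) := by ring
      _ ≤ _ := Nat.mul_le_mul_right _ h

theorem pANP : StTB → StANP := by
  intro hTB m p hp5
  obtain ⟨_, _, hTB3⟩ := hTB
  unfold W
  push_cast
  rw [Finset.mul_sum]
  refine Finset.sum_le_sum fun k hk => ?_
  rw [Finset.mem_Icc] at hk
  obtain ⟨hk1, hkn⟩ := hk
  have hmain := fact_main m p k hkn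
  have hT := hTB3 (m / p) k hkn
  have hkF : k.factorial ≤ (m / p).descFactorial k := by
    rw [Nat.descFactorial_eq_factorial_mul_choose]
    exact Nat.le_mul_of_pos_right _ (Nat.choose_pos hkn)
  set n := m / p with hn
  set F : ℕ := n.descFactorial k with hF
  have hF1 : 1 ≤ F := le_trans (Nat.one_le_iff_ne_zero.mpr (Nat.factorial_ne_zero k)) hkF
  set Mf : ℕ := (m - p * k).factorial with hMf
  have hFr1 : (1 : ℝ) ≤ F := by exact_mod_cast hF1
  have hF0 : (0 : ℝ) < F := by linarith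
  have hTr : (T n k : ℝ) ≤ 3 / 2 * F := by
    have : (2 : ℝ) * T n k ≤ 3 * F := by exact_mod_cast hT
    linarith
  have hT0 : (0 : ℝ) ≤ T n k := Nat.cast_nonneg _
  have hkFr : (k.factorial : ℝ) ≤ F := by exact_mod_cast hkF
  have hmainr : (Mf : ℝ) * ((p.factorial : ℝ) ^ k * (F : ℝ) ^ p) ≤ m.factorial := by
    exact_mod_cast hmain
  have hpf : (0 : ℝ) < (p.factorial : ℝ) := by exact_mod_cast Nat.factorial_pos p
  have hMf0 : (0 : ℝ) ≤ Mf := Nat.cast_nonneg _
  have hp1 : (4 : ℝ) ≤ (p : ℝ) - 1 := by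
    have : (5 : ℝ) ≤ p := by exact_mod_cast hp5
    linarith
  have hp0 : (0 : ℝ) < p := by linarith
  have hRT : ((RT p n k : ℕ) : ℝ) = ((p : ℝ) - 1) ^ k * T n k := by
    unfold RT
    push_cast
    rw [Nat.cast_sub (by omega), Nat.cast_one]
  rw [hRT]
  -- the ratio
  have hp2f : (0 : ℝ) < ((p - 2).factorial : ℝ) := by exact_mod_cast Nat.factorial_pos _
  have hpfac : (p.factorial : ℝ) = p * ((p : ℝ) - 1) * ((p - 2).factorial : ℝ) := by
    obtain ⟨q, hq⟩ : ∃ q, p = q + 2 := ⟨p - 2, by omega⟩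
    rw [hq, Nat.factorial_succ, Nat.factorial_succ, Nat.add_sub_cancel]
    push_cast
    ring
  have hr : (((p : ℝ) - 1) / ((p - 2).factorial : ℝ)) ^ k =
      (((p : ℝ) - 1) ^ k) ^ 2 * (p : ℝ) ^ k / (p.factorial : ℝ) ^ k := by
    rw [← pow_mul, mul_comm k 2, pow_mul, ← mul_pow, ← div_pow]
    congr 1
    rw [hpfac]
    field_simp
  rw [hr]
  have hFF : (F : ℝ) ^ 5 ≤ (F : ℝ) ^ p := pow_le_pow_right₀ hFr1 hp5
  have hA0 : (0 : ℝ) ≤ (((p : ℝ) - 1) ^ k) ^ 2 * (p : ℝ) ^ k := by positivity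
  have h1 : (((p : ℝ) - 1) ^ k * T n k) ^ 2 * Mf * (p : ℝ) ^ k * k.factorial * (F : ℝ) ^ 2 ≤
      ((((p : ℝ) - 1) ^ k) ^ 2 * (p : ℝ) ^ k) * (9 / 4) * (Mf * (F : ℝ) ^ 5) := by
    have h2 : (T n k : ℝ) ^ 2 ≤ (3 / 2 * F) ^ 2 := pow_le_pow_left₀ hT0 hTr 2
    have h3 : (T n k : ℝ) ^ 2 * k.factorial ≤ (3 / 2 * F) ^ 2 * F :=
      mul_le_mul h2 hkFr (Nat.cast_nonneg _) (by positivity)
    calc (((p : ℝ) - 1) ^ k * T n k) ^ 2 * Mf * (p : ℝ) ^ k * k.factorial * (F : ℝ) ^ 2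
        = ((((p : ℝ) - 1) ^ k) ^ 2 * (p : ℝ) ^ k) * (Mf * (F : ℝ) ^ 2) *
          ((T n k : ℝ) ^ 2 * k.factorial) := by ring
      _ ≤ ((((p : ℝ) - 1) ^ k) ^ 2 * (p : ℝ) ^ k) * (Mf * (F : ℝ) ^ 2) *
          ((3 / 2 * F) ^ 2 * F) := by
          apply mul_le_mul_of_nonneg_left h3
          positivity
      _ = _ := by ring
  have h4 : (Mf : ℝ) * (F : ℝ) ^ 5 ≤ m.factorial / (p.factorial : ℝ) ^ k := by
    rw [le_div_iff₀ (by positivity)]
    calc (Mf : ℝ) * (F : ℝ) ^ 5 * (p.factorial : ℝ) ^ k ≤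
          (Mf : ℝ) * (F : ℝ) ^ p * (p.factorial : ℝ) ^ k := by gcongr
      _ = (Mf : ℝ) * ((p.factorial : ℝ) ^ k * (F : ℝ) ^ p) := by ring
      _ ≤ _ := hmainr
  have h5 : ((((p : ℝ) - 1) ^ k) ^ 2 * (p : ℝ) ^ k) * (9 / 4) * (Mf * (F : ℝ) ^ 5) ≤
      ((((p : ℝ) - 1) ^ k) ^ 2 * (p : ℝ) ^ k) * (9 / 4) *
        (m.factorial / (p.factorial : ℝ) ^ k) := by
    apply mul_le_mul_of_nonneg_left h4
    positivity
  have hF2 : (0 : ℝ) < (F : ℝ) ^ 2 := by positivity
  have e6 : (m.factorial : ℝ) * (9 / 4 * ((((p : ℝ) - 1) ^ k) ^ 2 * (p : ℝ) ^ k /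
      (p.factorial : ℝ) ^ k) / (F : ℝ) ^ 2) =
      (((((p : ℝ) - 1) ^ k) ^ 2 * (p : ℝ) ^ k) * (9 / 4) *
        (m.factorial / (p.factorial : ℝ) ^ k)) / (F : ℝ) ^ 2 := by
    field_simp
  rw [e6, le_div_iff₀ hF2]
  exact le_trans h1 h5

end Pool.Agent.Helper8.SA
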