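import Pool.Agent.Helper17.SA.St

/-!
# Project SA (MP_21f9f3_al), module INT (restriction to an invariant set)
-/

set_option autoImplicit false

namespace Pool.Agent.Helper8.SA

open Equiv Pool.Agent.Helper17.SA

private theorem ccard {α : Type} [Fintype α] [DecidableEq α] (H : Subgroup (Perm α)) (p k : ℕ)
    [DecidablePred (fun y : Perm α => y ∈ H ∧ y.cycleType = Multiset.replicate k p)] :
    cc H p k = ((Finset.univ : Finset (Perm α)).filter
      (fun y => y ∈ H ∧ y.cycleType = Multiset.replicate k p)).card := by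
  unfold cc
  rw [Nat.card_eq_fintype_card, Fintype.card_subtype]

theorem pINT : StINT := by
  intro p α _ _ H S _ hp hH hS
  classical
  have hiff : ∀ y ∈ H, ∀ a, S (y a) ↔ S a := by
    intro y hy a
    constructor
    · intro h
      have h1 := hS y⁻¹ (H.inv_mem hy) _ h
      have h2 : y⁻¹ (y a) = a := y.symm_apply_apply a
      rwa [h2] at h1
    · exact hS y hy a
  have hiff' : ∀ y ∈ H, ∀ a, ¬ S (y a) ↔ ¬ S a := fun y hy a => not_congr (hiff y hy a)
  let f1 : H →* Perm {a // S a} :=
    { toFun := fun y => (y : Perm α).subtypePerm (hiff y y.2)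
      map_one' := by ext; rfl
      map_mul' := by intro a b; ext; rfl }
  let f2 : H →* Perm {a // ¬ S a} :=
    { toFun := fun y => (y : Perm α).subtypePerm (hiff' y y.2)
      map_one' := by ext; rfl
      map_mul' := by intro a b; ext; rfl }
  refine ⟨f1.range, f2.range, hH.of_surjective f1.rangeRestrict f1.rangeRestrict_surjective,
    hH.of_surjective f2.rangeRestrict f2.rangeRestrict_surjective, ?_⟩
  -- cycle types
  have hct : ∀ y : H, (y : Perm α).cycleType = (f1 y).cycleType + (f2 y).cycleType := by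
    intro y
    have hmul : (y : Perm α) = Perm.ofSubtype (f1 y) * Perm.ofSubtype (f2 y) := by
      ext a
      rw [Perm.mul_apply]
      by_cases ha : S a
      · rw [Perm.ofSubtype_apply_of_not_mem (f2 y) (not_not.mpr ha),
          Perm.ofSubtype_apply_of_mem (f1 y) ha]
        rfl
      · rw [Perm.ofSubtype_apply_of_mem (f2 y) ha]
        have h1 : ((f2 y) ⟨a, ha⟩ : α) = (y : Perm α) a := rfl
        rw [h1, Perm.ofSubtype_apply_of_not_mem (f1 y) ((hiff' y y.2 a).mpr ha)]
    have hdis : Perm.Disjoint (Perm.ofSubtype (f1 y)) (Perm.ofSubtype (f2 y)) := by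
      intro a
      by_cases ha : S a
      · right
        exact Perm.ofSubtype_apply_of_not_mem (f2 y) (not_not.mpr ha)
      · left
        exact Perm.ofSubtype_apply_of_not_mem (f1 y) ha
    rw [hmul, hdis.cycleType_mul, Perm.cycleType_ofSubtype, Perm.cycleType_ofSubtype]
  intro k
  have hcc1 : ∀ i, cc f1.range p i = ((Finset.univ : Finset (Perm {a // S a})).filter
      (fun y => y ∈ f1.range ∧ y.cycleType = Multiset.replicate i p)).card := by
    intro i
    exact ccard f1.range p i
  have hcc2 : ∀ i, cc f2.range p i = ((Finset.univ : Finset (Perm {a // ¬ S a})).filter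
      (fun y => y ∈ f2.range ∧ y.cycleType = Multiset.replicate i p)).card := by
    intro i
    exact ccard f2.range p i
  have hcc : cc H p k = ((Finset.univ : Finset (Perm α)).filter
      (fun y => y ∈ H ∧ y.cycleType = Multiset.replicate k p)).card := by
    exact ccard H p k
  rw [hcc]
  have hsum : ∑ i ∈ Finset.range (k + 1), cc f1.range p i * cc f2.range p (k - i) =
      ∑ i ∈ Finset.range (k + 1),
        (((Finset.univ : Finset (Perm {a // S a})).filter
          (fun y => y ∈ f1.range ∧ y.cycleType = Multiset.replicate i p)) ×ˢ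
        ((Finset.univ : Finset (Perm {a // ¬ S a})).filter
          (fun y => y ∈ f2.range ∧ y.cycleType = Multiset.replicate (k - i) p))).card := by
    refine Finset.sum_congr rfl fun i _ => ?_
    rw [hcc1, hcc2, Finset.card_product]
  rw [hsum]
  refine le_trans ?_ Finset.card_biUnion_le
  let g : Perm α → Perm {a // S a} × Perm {a // ¬ S a} := fun y =>
    if h : y ∈ H then (f1 ⟨y, h⟩, f2 ⟨y, h⟩) else (1, 1)
  apply Finset.card_le_card_of_injOn g
  · intro y hy
    rw [Finset.mem_coe, Finset.mem_filter] at hy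
    obtain ⟨_, hyH, hyt⟩ := hy
    have hg : g y = (f1 ⟨y, hyH⟩, f2 ⟨y, hyH⟩) := dif_pos hyH
    rw [Finset.mem_coe, Finset.mem_biUnion, hg]
    have h1 := hct ⟨y, hyH⟩
    rw [hyt] at h1
    have h2 : (f1 ⟨y, hyH⟩).cycleType ≤ Multiset.replicate k p := by
      rw [h1]
      exact Multiset.le_add_right _ _
    obtain ⟨i, hik, hi⟩ := Multiset.le_replicate_iff.mp h2
    have h3 : (f2 ⟨y, hyH⟩).cycleType = Multiset.replicate (k - i) p := by
      rw [hi] at h1
      have h4 : Multiset.replicate k p = Multiset.replicate i p + Multiset.replicate (k - i) p := by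
        rw [← Multiset.replicate_add]
        congr 1
        omega
      rw [h4] at h1
      exact (add_left_cancel h1).symm
    refine ⟨i, Finset.mem_range.mpr (by omega), ?_⟩
    rw [Finset.mem_product, Finset.mem_filter, Finset.mem_filter]
    exact ⟨⟨Finset.mem_univ _, ⟨⟨y, hyH⟩, rfl⟩, hi⟩, ⟨Finset.mem_univ _, ⟨⟨y, hyH⟩, rfl⟩, h3⟩⟩
  · intro y hy y' hy' he
    rw [Finset.mem_coe, Finset.mem_filter] at hy hy'
    have hg : g y = (f1 ⟨y, hy.2.1⟩, f2 ⟨y, hy.2.1⟩) := dif_pos hy.2.1
    have hg' : g y' = (f1 ⟨y', hy'.2.1⟩, f2 ⟨y', hy'.2.1⟩) := dif_pos hy'.2.1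
    rw [hg, hg', Prod.mk.injEq] at he
    ext a
    by_cases ha : S a
    · have h1 := congrArg (fun (σ : Perm {a // S a}) => ((σ ⟨a, ha⟩ : {a // S a}) : α)) he.1
      exact h1
    · have h1 := congrArg (fun (σ : Perm {a // ¬ S a}) => ((σ ⟨a, ha⟩ : {a // ¬ S a}) : α)) he.2
      exact h1

end Pool.Agent.Helper8.SA
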