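import Pool.Agent.Helper17.SA.St

/-!
# Project SA (MP_21f9f3_al), module OUT (elements of order p outside K)
-/

set_option autoImplicit false

namespace Pool.Agent.Helper8.SA

open Equiv Pool.Agent.Helper17.SA

theorem pOUT : StLEG → StOUT := by
  intro hLEG p α _ _ H K j S hp hH hj hcard hKH hKS hScard hblock hrel
  classical
  have hSiff : ∀ y ∈ K, ∀ a, S (y a) ↔ S a := by
    intro y hy a
    constructor
    · intro h
      have h1 := hKS y⁻¹ (K.inv_mem hy) _ h
      have h2 : y⁻¹ (y a) = a := y.symm_apply_apply a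
      rwa [h2] at h1
    · exact hKS y hy a
  have hSiff' : ∀ y ∈ K, ∀ a, ¬ S (y a) ↔ ¬ S a := fun y hy a => not_congr (hSiff y hy a)
  let f : K →* Perm {a // ¬ S a} :=
    { toFun := fun y => (y : Perm α).subtypePerm (hSiff' y y.2)
      map_one' := by ext; rfl
      map_mul' := by intro a b; ext; rfl }
  have hKp : IsPGroup p K := hH.to_le hKH
  have hLp : IsPGroup p f.range := hKp.of_surjective f.rangeRestrict f.rangeRestrict_surjective
  have hcomp : Fintype.card {a // ¬ S a} = p ^ j - p ^ (j - 1) := by
    rw [Fintype.card_subtype_compl, hcard]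
    congr 1
    rw [← hScard, Nat.card_eq_fintype_card]
  have hL := hLEG p j {a // ¬ S a} f.range hp hj hcomp hLp
  set B := p ^ (p ^ (j - 1) - 1) with hB
  -- the quotient
  set Q := H ⧸ (K.subgroupOf H) with hQ
  have hQcard : Nat.card Q = p := by
    have : (K.subgroupOf H).index = p := hrel
    rw [← this]
    rfl
  have : Finite Q := Nat.finite_of_card_ne_zero (by rw [hQcard]; exact hp.ne_zero)
  have : Fintype Q := Fintype.ofFinite Q
  have hQc : Fintype.card Q = p := by rw [← Nat.card_eq_fintype_card, hQcard]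
  let q : Perm α → Q := fun y =>
    if h : y ∈ H then (QuotientGroup.mk (⟨y, h⟩ : H) : Q) else (QuotientGroup.mk (1 : H) : Q)
  set s : Finset (Perm α) := Finset.univ.filter (fun y => y ∈ H ∧ y ∉ K ∧ y ^ p = 1) with hs
  have hscard : Nat.card {y : Perm α // y ∈ H ∧ y ∉ K ∧ y ^ p = 1} = s.card := by
    rw [Nat.card_eq_fintype_card, Fintype.card_subtype]
  rw [hscard]
  have hmaps : ∀ y ∈ s, q y ∈ (Finset.univ : Finset Q).erase (QuotientGroup.mk (1 : H) : Q) := by
    intro y hy
    rw [hs, Finset.mem_filter] at hy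
    rw [Finset.mem_erase]
    refine ⟨?_, Finset.mem_univ _⟩
    have hq : q y = (QuotientGroup.mk (⟨y, hy.2.1⟩ : H) : Q) := dif_pos hy.2.1
    rw [hq]
    intro he
    rw [eq_comm, QuotientGroup.eq, Subgroup.mem_subgroupOf] at he
    apply hy.2.2.1
    simpa using he
  have hfib : ∀ b ∈ (Finset.univ : Finset Q).erase (QuotientGroup.mk (1 : H) : Q),
      (s.filter (fun y => q y = b)).card ≤ B := by
    intro b _
    by_cases hne : (s.filter (fun y => q y = b)).Nonempty
    · obtain ⟨y0, hy0⟩ := hne
      rw [Finset.mem_filter, hs, Finset.mem_filter] at hy0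
      obtain ⟨⟨_, hy0H, hy0K, _⟩, hy0b⟩ := hy0
      have hK : ∀ y ∈ s.filter (fun y => q y = b), y0⁻¹ * y ∈ K := by
        intro y hy
        rw [Finset.mem_filter, hs, Finset.mem_filter] at hy
        have h1 : q y = (QuotientGroup.mk (⟨y, hy.1.2.1⟩ : H) : Q) := dif_pos hy.1.2.1
        have h2 : q y0 = (QuotientGroup.mk (⟨y0, hy0H⟩ : H) : Q) := dif_pos hy0H
        have h3 : (QuotientGroup.mk (⟨y0, hy0H⟩ : H) : Q) = QuotientGroup.mk (⟨y, hy.1.2.1⟩ : H) := by
          rw [← h1, ← h2, hy0b, hy.2]
        rw [QuotientGroup.eq, Subgroup.mem_subgroupOf] at h3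
        simpa using h3
      let g : Perm α → Perm {a // ¬ S a} := fun y =>
        if h : y0⁻¹ * y ∈ K then f ⟨y0⁻¹ * y, h⟩ else 1
      have hinj : Set.InjOn g (s.filter (fun y => q y = b) : Finset (Perm α)) := by
        intro y hy y' hy' he
        rw [Finset.mem_coe] at hy hy'
        have h1 : g y = f ⟨y0⁻¹ * y, hK y hy⟩ := dif_pos (hK y hy)
        have h2 : g y' = f ⟨y0⁻¹ * y', hK y' hy'⟩ := dif_pos (hK y' hy')
        rw [h1, h2] at he
        have hc : ∀ c, ¬ S c → y c = y' c := by
          intro c hcS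
          have h3 := congrArg (fun (σ : Perm {a // ¬ S a}) => ((σ ⟨c, hcS⟩ : {a // ¬ S a}) : α)) he
          have h4 : (y0⁻¹ * y) c = (y0⁻¹ * y') c := h3
          rw [Perm.mul_apply, Perm.mul_apply] at h4
          exact y0⁻¹.injective h4
        rw [Finset.mem_filter, hs, Finset.mem_filter] at hy hy'
        obtain ⟨⟨_, hyH, hyK, hyp⟩, _⟩ := hy
        obtain ⟨⟨_, hyH', hyK', hyp'⟩, _⟩ := hy'
        ext b0
        by_cases hb0 : S b0
        · have hind : ∀ i, i < p → (y ^ i) (y' b0) = (y' ^ (i + 1)) b0 := by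
            intro i
            induction i with
            | zero => intro _; simp
            | succ i ih =>
              intro hi
              have h5 := ih (by omega)
              have h6 : ¬ S ((y' ^ (i + 1)) b0) := hblock y' hyH' hyK' (i + 1) (by omega) hi b0 hb0
              rw [pow_succ' y i, Perm.mul_apply, h5, hc _ h6, pow_succ' y' (i + 1), Perm.mul_apply]
          have hp1 : p - 1 + 1 = p := Nat.sub_add_cancel hp.one_lt.le
          have h7 := hind (p - 1) (by have := hp.pos; omega)
          rw [hp1, hyp', Perm.one_apply] at h7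
          have h8 : (y ^ p) (y' b0) = y b0 := by
            rw [← hp1, pow_succ', Perm.mul_apply, h7]
          rw [hyp, Perm.one_apply] at h8
          exact h8.symm
        · exact hc b0 hb0
      have hmt : ∀ y ∈ s.filter (fun y => q y = b), g y ∈
          (Finset.univ : Finset (Perm {a // ¬ S a})).filter (fun z => z ∈ f.range) := by
        intro y hy
        rw [Finset.mem_filter]
        refine ⟨Finset.mem_univ _, ?_⟩
        have h1 : g y = f ⟨y0⁻¹ * y, hK y hy⟩ := dif_pos (hK y hy)
        rw [h1]
        exact ⟨_, rfl⟩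
      have hle := Finset.card_le_card_of_injOn g hmt hinj
      have hLc : ((Finset.univ : Finset (Perm {a // ¬ S a})).filter (fun z => z ∈ f.range)).card =
          Nat.card f.range := by
        have h9 : Nat.card f.range = Fintype.card {z // z ∈ f.range} := Nat.card_eq_fintype_card
        rw [h9, Fintype.card_subtype]
      rw [hLc] at hle
      exact le_trans hle hL
    · rw [Finset.not_nonempty_iff_eq_empty] at hne
      rw [hne, Finset.card_empty]
      exact Nat.zero_le _
  have hfin := Finset.card_le_mul_card_image_of_maps_to hmaps B hfib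
  rw [Finset.card_erase_of_mem (Finset.mem_univ _), Finset.card_univ, hQc] at hfin
  rw [Nat.mul_comm]
  exact hfin

end Pool.Agent.Helper8.SA
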