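import Pool.Agent.Helper17.SA.St4

set_option autoImplicit false

open scoped Pointwise

namespace Pool.Agent.Helper8.SA

open Equiv Pool.Agent.Helper17.SA

theorem fact_aux (p k m : ℕ) (hp : p.Prime) (hm : ¬ p ∣ m) : (p ^ k * m).factorization p = k := by
  have hm0 : m ≠ 0 := by
    rintro rfl
    exact hm (dvd_zero p)
  rw [Nat.factorization_mul (pow_ne_zero _ hp.ne_zero) hm0]
  simp [hp.factorization_self, Nat.factorization_eq_zero_of_not_dvd hm]

theorem card6 : Nat.card (alternatingGroup (Fin 6)) = 2 ^ 3 * 45 := by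
  have h := two_mul_card_alternatingGroup (α := Fin 6)
  rw [Fintype.card_perm, Fintype.card_fin] at h
  rw [Nat.card_eq_fintype_card]
  have h6 : Nat.factorial 6 = 720 := rfl
  rw [h6] at h
  omega

theorem sylow2 (V : Sylow 2 (alternatingGroup (Fin 6))) : Nat.card V = 8 := by
  haveI : Fact (Nat.Prime 2) := ⟨Nat.prime_two⟩
  have h := Sylow.card_eq_multiplicity V
  rw [card6, fact_aux 2 3 45 Nat.prime_two (by norm_num)] at h
  exact h

theorem sylow_bot (q : ℕ) (hq : q.Prime) (h2 : q ≠ 2) (h3 : q ≠ 3) (h5 : q ≠ 5)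
    (P : Sylow q (alternatingGroup (Fin 6))) :
    (P : Subgroup (alternatingGroup (Fin 6))) = ⊥ := by
  haveI : Fact (Nat.Prime q) := ⟨hq⟩
  have h := Sylow.card_eq_multiplicity P
  have hnd : ¬ q ∣ 2 ^ 3 * 45 := by
    intro hd
    have hd' : q ∣ 2 ^ 3 * (3 ^ 2 * 5) := by
      norm_num at hd ⊢
      exact hd
    rcases (Nat.Prime.dvd_mul hq).1 hd' with h | h
    · exact h2 ((Nat.prime_dvd_prime_iff_eq hq Nat.prime_two).1 (hq.dvd_of_dvd_pow h))
    · rcases (Nat.Prime.dvd_mul hq).1 h with h | h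
      · exact h3 ((Nat.prime_dvd_prime_iff_eq hq Nat.prime_three).1 (hq.dvd_of_dvd_pow h))
      · exact h5 ((Nat.prime_dvd_prime_iff_eq hq Nat.prime_five).1 h)
  rw [card6, Nat.factorization_eq_zero_of_not_dvd hnd, pow_zero] at h
  exact Subgroup.eq_bot_of_card_eq _ h

/-- The number of elements of a regular double coset. -/
theorem cardD {S : Type} [Group S] [Finite S] (V V' : Subgroup S) (n0 : S)
    (h : Rg V' V n0) : Nat.card {n : S // InD V' V n0 n} = Nat.card V' * Nat.card V := by
  rw [← Nat.card_prod]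
  symm
  refine Nat.card_congr (Equiv.ofBijective
    (fun q : V' × V => (⟨q.1 * n0 * q.2, q.1, q.1.2, q.2, q.2.2, rfl⟩ : {n : S // InD V' V n0 n}))
    ⟨?_, ?_⟩)
  · rintro ⟨a, b⟩ ⟨a', b'⟩ hab
    have hab : (a : S) * n0 * b = a' * n0 * b' := congrArg Subtype.val hab
    have h1 : n0 * ((b : S) * (b' : S)⁻¹) * n0⁻¹ = (a : S)⁻¹ * a' := by
      have : n0 * (b : S) = (a : S)⁻¹ * (a' * n0 * b') := by
        rw [← hab]; group
      rw [← mul_assoc n0, this]
      group
    have h2 : (b : S) * (b' : S)⁻¹ = 1 := by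
      refine h _ (V.mul_mem b.2 (V.inv_mem b'.2)) ?_
      rw [h1]
      exact V'.mul_mem (V'.inv_mem a.2) a'.2
    have h3 : (b : S) = b' := mul_inv_eq_one.1 h2
    have h4 : (a : S) = a' := by
      rw [h3] at hab
      exact mul_right_cancel (mul_right_cancel hab)
    exact Prod.ext (Subtype.ext h4) (Subtype.ext h3)
  · rintro ⟨n, a, ha, b, hb, rfl⟩
    exact ⟨(⟨a, ha⟩, ⟨b, hb⟩), rfl⟩

theorem cntq {S : Type} [Group S] {q0 M1 M2 : ℕ} (h : Cnt S q0 M1 M2) (q : ℕ) (hq : q = q0)
    (V V' : Sylow 2 S) (n0 : S) (hr : Rg (V' : Subgroup S) V n0) (P : Sylow q S) (c x : S) :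
    Nat.card {n : S // InD (V' : Subgroup S) V n0 n ∧ Bad (P : Subgroup S) (c * n)} ≤ M1 ∧
    Nat.card {n : S // InD (V' : Subgroup S) V n0 n ∧
      (Bad (P : Subgroup S) (c * n) ∨ ∃ a ∈ P, ∃ b ∈ P, c * n = a * x * b)} ≤ M2 := by
  subst hq
  exact h V V' n0 hr P c x

theorem not_bad_bot {S : Type} [Group S] {H : Subgroup S} (h : H = ⊥) (x : S) : ¬ Bad H x := by
  rintro ⟨y, hy, hy1, _⟩
  rw [h, Subgroup.mem_bot] at hy
  exact hy1 hy

theorem pHN6 : StC63 → StC65 → StHN6 := by
  classical
  intro h63 h65 V V' n0 hr ι _ p hp hinj hp2 H c j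
  let S := alternatingGroup (Fin 6)
  let InDD : S → Prop := InD (V' : Subgroup S) V n0
  have hD : (Finset.univ.filter fun n : S => InDD n).card = 64 := by
    have h := cardD (V : Subgroup S) V' n0 hr
    have e1 : Nat.card (V' : Subgroup S) = 8 := sylow2 V'
    have e2 : Nat.card (V : Subgroup S) = 8 := sylow2 V
    rw [e1, e2, Nat.card_eq_fintype_card, Fintype.card_subtype] at h
    exact h
  let B : ℕ → Finset S := fun q => Finset.univ.filter fun n : S =>
    InDD n ∧ ∃ i, p i = q ∧ Bad (H i : Subgroup S) (c i * n)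
  have hB : ∀ q M1 M2, Cnt S q M1 M2 → (B q).card ≤ M1 := by
    intro q M1 M2 hc
    by_cases hi : ∃ i, p i = q
    · obtain ⟨i, hi⟩ := hi
      have h := (cntq hc (p i) hi V V' n0 hr (H i) (c i) 1).1
      rw [Nat.card_eq_fintype_card, Fintype.card_subtype] at h
      refine le_trans (Finset.card_le_card ?_) h
      intro n hn
      simp only [B, Finset.mem_filter, Finset.mem_univ, true_and] at hn ⊢
      obtain ⟨h1, i', hi', h2⟩ := hn
      have : i' = i := hinj (hi'.trans hi.symm)
      subst this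
      exact ⟨h1, h2⟩
    · have : B q = ∅ := by
        refine Finset.filter_eq_empty_iff.2 fun n _ hn => hi ?_
        obtain ⟨_, i, h, _⟩ := hn
        exact ⟨i, h⟩
      rw [this, Finset.card_empty]
      exact Nat.zero_le _
  have hB3 := hB 3 28 53 h63
  have hB5 := hB 5 10 35 h65
  have hgood : ∀ n : S, InDD n → n ∉ B 3 → n ∉ B 5 → ∀ i, ¬ Bad (H i : Subgroup S) (c i * n) := by
    intro n hn h3 h5 i hb
    by_cases e3 : p i = 3
    · exact h3 (Finset.mem_filter.2 ⟨Finset.mem_univ _, hn, i, e3, hb⟩)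
    by_cases e5 : p i = 5
    · exact h5 (Finset.mem_filter.2 ⟨Finset.mem_univ _, hn, i, e5, hb⟩)
    exact not_bad_bot (sylow_bot (p i) (hp i) (hp2 i) e3 e5 (H i)) _ hb
  have hex : ∀ E : Finset S, E.card < 64 → ∃ n : S, InDD n ∧ n ∉ E := by
    intro E hE
    by_contra hno
    push Not at hno
    have : (Finset.univ.filter fun n : S => InDD n) ⊆ E := by
      intro n hn
      exact hno n (Finset.mem_filter.1 hn).2
    have := Finset.card_le_card this
    omega
  obtain ⟨n, hn, hnE⟩ := hex (B 3 ∪ B 5) (lt_of_le_of_lt (Finset.card_union_le _ _) (by omega))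
  rw [Finset.mem_union, not_or] at hnE
  let X : Finset S := Finset.univ.filter fun m : S =>
    InDD m ∧ ∃ a ∈ H j, ∃ b ∈ H j, c j * m = a * (c j * n) * b
  have hcard : (B 3 ∪ B 5 ∪ X).card < 64 := by
    have aux : ∀ q M1 M2, Cnt S q M1 M2 → p j = q → (B q ∪ X).card ≤ M2 := by
      intro q M1 M2 hc hq
      have h := (cntq hc (p j) hq V V' n0 hr (H j) (c j) (c j * n)).2
      rw [Nat.card_eq_fintype_card, Fintype.card_subtype] at h
      refine le_trans (Finset.card_le_card ?_) h
      intro m hm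
      rw [Finset.mem_filter]
      refine ⟨Finset.mem_univ _, ?_⟩
      rcases Finset.mem_union.1 hm with hm | hm
      · simp only [B, Finset.mem_filter, Finset.mem_univ, true_and] at hm
        obtain ⟨h1, i', hi', h2⟩ := hm
        have : i' = j := hinj (hi'.trans hq.symm)
        subst this
        exact ⟨h1, Or.inl h2⟩
      · simp only [X, Finset.mem_filter, Finset.mem_univ, true_and] at hm
        exact ⟨hm.1, Or.inr hm.2⟩
    by_cases e3 : p j = 3
    · have h1 := aux 3 28 53 h63 e3
      have h2 : (B 3 ∪ B 5 ∪ X).card ≤ (B 3 ∪ X).card + (B 5).card := by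
        refine le_trans (Finset.card_le_card ?_) (Finset.card_union_le _ _)
        intro m hm
        simp only [Finset.mem_union] at hm ⊢
        tauto
      omega
    by_cases e5 : p j = 5
    · have h1 := aux 5 10 35 h65 e5
      have h2 : (B 3 ∪ B 5 ∪ X).card ≤ (B 5 ∪ X).card + (B 3).card := by
        refine le_trans (Finset.card_le_card ?_) (Finset.card_union_le _ _)
        intro m hm
        simp only [Finset.mem_union] at hm ⊢
        tauto
      omega
    have hbot := sylow_bot (p j) (hp j) (hp2 j) e3 e5 (H j)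
    have hX : X.card ≤ 1 := by
      refine le_trans (Finset.card_le_card (t := {n}) ?_) (by simp)
      intro m hm
      simp only [X, Finset.mem_filter, Finset.mem_univ, true_and] at hm
      obtain ⟨_, a, ha, b, hb, e⟩ := hm
      have ha1 : a = 1 := by
        have : a ∈ (H j : Subgroup S) := ha
        rwa [hbot, Subgroup.mem_bot] at this
      have hb1 : b = 1 := by
        have : b ∈ (H j : Subgroup S) := hb
        rwa [hbot, Subgroup.mem_bot] at this
      rw [ha1, hb1, one_mul, mul_one] at e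
      rw [Finset.mem_singleton]
      exact mul_left_cancel e
    have h2 := Finset.card_union_le (B 3 ∪ B 5) X
    have h3 := Finset.card_union_le (B 3) (B 5)
    omega
  obtain ⟨n', hn', hnE'⟩ := hex _ hcard
  rw [Finset.mem_union, Finset.mem_union, not_or, not_or] at hnE'
  refine ⟨n, n', hn, hn', hgood n hn hnE.1 hnE.2, hgood n' hn' hnE'.1.1 hnE'.1.2, ?_⟩
  intro a ha b hb e
  exact hnE'.2 (Finset.mem_filter.2 ⟨Finset.mem_univ _, hn', a, ha, b, hb, e⟩)

end Pool.Agent.Helper8.SA
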